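import Pool.Agent.Q236.CR.Stm
import Pool.Agent.H373R2.T7.LamMaj
import Pool.Agent.H373R2.T7.SupMu

/-!
# CR-LOW: small heights
-/

set_option autoImplicit false

namespace Pool.Agent.Q121.CR

open Finset
open Pool.Agent.Q236.CR

theorem nt_eq (t : ℝ) {n : ℕ} (hn : 1 ≤ n) :
    nt t n = Complex.exp (Complex.I * ((-(t * Real.log n) : ℝ) : ℂ)) := by
  unfold nt
  have hn0 : (n : ℂ) ≠ 0 := by exact_mod_cast (by omega : n ≠ 0)
  rw [Complex.cpow_def_of_ne_zero hn0, ← Complex.natCast_log]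
  congr 1
  push_cast
  ring

theorem nt_norm (t : ℝ) {n : ℕ} (hn : 1 ≤ n) : ‖nt t n‖ = 1 := by
  rw [nt_eq t hn, mul_comm, Complex.norm_exp_ofReal_mul_I]

theorem nt_diff (t : ℝ) {n : ℕ} (hn : 1 ≤ n) : ‖nt t (n + 1) - nt t n‖ ≤ |t| / n := by
  have hn' : (0 : ℝ) < n := by exact_mod_cast hn
  rw [nt_eq t hn, nt_eq t (by omega : 1 ≤ n + 1)]
  have e1 : Complex.exp (Complex.I * ((-(t * Real.log ((n + 1 : ℕ) : ℝ)) : ℝ) : ℂ)) -
      Complex.exp (Complex.I * ((-(t * Real.log n) : ℝ) : ℂ)) =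
      Complex.exp (Complex.I * ((-(t * Real.log n) : ℝ) : ℂ)) *
        (Complex.exp (Complex.I * ((-(t * (Real.log ((n + 1 : ℕ) : ℝ) - Real.log n)) : ℝ) : ℂ)) - 1) := by
    rw [mul_sub, ← Complex.exp_add, mul_one]
    congr 2
    push_cast
    ring
  rw [e1, norm_mul, mul_comm Complex.I ((-(t * Real.log n) : ℝ) : ℂ),
    Complex.norm_exp_ofReal_mul_I, one_mul]
  refine (Real.norm_exp_I_mul_ofReal_sub_one_le).trans ?_
  rw [Real.norm_eq_abs, abs_neg, abs_mul]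
  have h1 : 0 ≤ Real.log ((n + 1 : ℕ) : ℝ) - Real.log n := by
    rw [sub_nonneg]
    exact Real.log_le_log hn' (by push_cast; linarith)
  have h2 : Real.log ((n + 1 : ℕ) : ℝ) - Real.log n ≤ 1 / n := by
    rw [← Real.log_div (by positivity) hn'.ne']
    refine (Real.log_le_sub_one_of_pos (by positivity)).trans ?_
    push_cast
    apply le_of_eq
    field_simp
    ring
  rw [abs_of_nonneg h1]
  calc |t| * (Real.log ((n + 1 : ℕ) : ℝ) - Real.log n) ≤ |t| * (1 / n) :=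
        mul_le_mul_of_nonneg_left h2 (abs_nonneg t)
    _ = _ := by ring

/-- summation by parts -/
theorem parts (g f : ℕ → ℂ) (x1 k : ℕ) : ∑ n ∈ Ioc x1 (x1 + k), g n * f n =
    (∑ n ∈ Icc 1 (x1 + k), g n) * f (x1 + k + 1) - (∑ n ∈ Icc 1 x1, g n) * f (x1 + 1) -
      ∑ n ∈ Ioc x1 (x1 + k), (∑ m ∈ Icc 1 n, g m) * (f (n + 1) - f n) := by
  induction k with
  | zero => simp
  | succ k ih =>
    have e1 : Ioc x1 (x1 + (k + 1)) = insert (x1 + k + 1) (Ioc x1 (x1 + k)) := by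
      ext n
      simp only [mem_Ioc, mem_insert]
      omega
    have e2 : x1 + k + 1 ∉ Ioc x1 (x1 + k) := by simp
    have e3 : Icc 1 (x1 + k + 1) = insert (x1 + k + 1) (Icc 1 (x1 + k)) := by
      ext n
      simp only [mem_Icc, mem_insert]
      omega
    have e4 : x1 + k + 1 ∉ Icc 1 (x1 + k) := by simp
    rw [e1, sum_insert e2, sum_insert e2, ih, show x1 + (k + 1) = x1 + k + 1 by ring, e3,
      sum_insert e4]
    ring

theorem parts_le {g f : ℕ → ℂ} {x1 x2 M : ℕ} {B D : ℝ} (hM : x2 ≤ M)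
    (hB0 : 0 ≤ B) (hD0 : 0 ≤ D) (hB : ∀ y ≤ M, ‖∑ n ∈ Icc 1 y, g n‖ ≤ B)
    (hf : ∀ n, 1 ≤ n → ‖f n‖ ≤ 1) (hD : ∀ n, x1 < n → ‖f (n + 1) - f n‖ ≤ D) :
    ‖∑ n ∈ Ioc x1 x2, g n * f n‖ ≤ B * (2 + x2 * D) := by
  by_cases h : x1 ≤ x2
  · obtain ⟨k, rfl⟩ := Nat.exists_eq_add_of_le h
    rw [parts]
    have h1 : ‖(∑ n ∈ Icc 1 (x1 + k), g n) * f (x1 + k + 1)‖ ≤ B := by
      rw [norm_mul]
      calc _ ≤ B * 1 := mul_le_mul (hB _ hM) (hf _ (by omega)) (norm_nonneg _) hB0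
        _ = B := mul_one B
    have h2 : ‖(∑ n ∈ Icc 1 x1, g n) * f (x1 + 1)‖ ≤ B := by
      rw [norm_mul]
      calc _ ≤ B * 1 := mul_le_mul (hB _ (by omega)) (hf _ (by omega)) (norm_nonneg _) hB0
        _ = B := mul_one B
    have h3 : ‖∑ n ∈ Ioc x1 (x1 + k), (∑ m ∈ Icc 1 n, g m) * (f (n + 1) - f n)‖ ≤ k * (B * D) := by
      refine (norm_sum_le _ _).trans ?_
      refine (sum_le_card_nsmul _ _ (B * D) fun n hn => ?_).trans ?_
      · rw [mem_Ioc] at hn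
        rw [norm_mul]
        exact mul_le_mul (hB _ (by omega)) (hD _ hn.1) (norm_nonneg _) hB0
      · rw [Nat.card_Ioc, nsmul_eq_mul]
        have : x1 + k - x1 = k := by omega
        rw [this]
    have h4 : (k : ℝ) * (B * D) ≤ ((x1 + k : ℕ) : ℝ) * (B * D) :=
      mul_le_mul_of_nonneg_right (by push_cast; linarith [Nat.cast_nonneg (α := ℝ) x1])
        (mul_nonneg hB0 hD0)
    calc _ ≤ B + B + k * (B * D) :=
          (norm_sub_le _ _).trans (add_le_add ((norm_sub_le _ _).trans (add_le_add h1 h2)) h3)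
      _ ≤ _ := by linarith
  · rw [Ioc_eq_empty (by omega), sum_empty, norm_zero]
    positivity

theorem sum_zmod (q : ℕ) [NeZero q] (f : ZMod q → ℂ) :
    ∑ c ∈ range q, f (c : ZMod q) = ∑ a : ZMod q, f a := by
  refine sum_bij (fun c _ => (c : ZMod q)) (fun _ _ => mem_univ _) ?_ ?_ (fun _ _ => rfl)
  · intro a ha b hb h
    rw [ZMod.natCast_eq_natCast_iff'] at h
    rwa [Nat.mod_eq_of_lt (mem_range.1 ha), Nat.mod_eq_of_lt (mem_range.1 hb)] at h
  · intro a _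
    exact ⟨a.val, mem_range.2 (ZMod.val_lt a), ZMod.natCast_zmod_val a⟩

/-- splitting into classes -/
theorem cls (q : ℕ) [NeZero q] (χ : DirichletCharacter ℂ q) (a : ℕ → ℝ) (y : ℕ) :
    ∑ n ∈ Icc 1 y, χ (n : ZMod q) * (a n : ℂ) = ∑ c ∈ range q, χ (c : ZMod q) *
      ((∑ n ∈ (Icc 1 y).filter (fun n => n ≡ c [MOD q]), a n : ℝ) : ℂ) := by
  have hq : 0 < q := Nat.pos_of_ne_zero (NeZero.ne q)
  rw [← sum_fiberwise_of_maps_to (s := Icc 1 y) (t := range q) (g := fun n => n % q)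
    (fun n _ => mem_range.2 (Nat.mod_lt n hq))]
  refine sum_congr rfl fun c hc => ?_
  have hc' := mem_range.1 hc
  have e1 : (Icc 1 y).filter (fun n => n % q = c) = (Icc 1 y).filter (fun n => n ≡ c [MOD q]) := by
    refine filter_congr fun n _ => ?_
    unfold Nat.ModEq
    rw [Nat.mod_eq_of_lt hc']
  rw [e1, Complex.ofReal_sum, mul_sum]
  refine sum_congr rfl fun n hn => ?_
  have h1 : (n : ZMod q) = (c : ZMod q) := (ZMod.natCast_eq_natCast_iff _ _ _).2 (mem_filter.1 hn).2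
  rw [h1]

theorem chi_le {q : ℕ} (χ : DirichletCharacter ℂ q) (x : ZMod q) : ‖χ x‖ ≤ 1 :=
  DirichletCharacter.norm_le_one χ x

/-- the prefix sums for `Λ` -/
theorem pre_lam (B U : ℕ) : ∃ N0 : ℕ, ∀ N : ℕ, N0 ≤ N → ∀ (q : ℕ) (_ : NeZero q),
    (q : ℝ) ≤ Real.log N ^ B → ∀ (χ : DirichletCharacter ℂ q) (y : ℕ), y ≤ N →
    ‖∑ n ∈ Icc 1 y, (cL χ n - (if χ = 1 then 1 else 0))‖ ≤ q * (N / Real.log N ^ U) := by
  obtain ⟨N0, h⟩ := Pool.Agent.H373R2.T7.lam_ap B U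
  refine ⟨N0, fun N hN q hq hqB χ y hy => ?_⟩
  have hq1 : 1 ≤ q := Nat.pos_of_ne_zero (NeZero.ne q)
  have hφ : (0 : ℝ) < (Nat.totient q : ℝ) := by exact_mod_cast Nat.totient_pos.2 hq1
  have hφC : ((Nat.totient q : ℕ) : ℂ) ≠ 0 := by exact_mod_cast (Nat.totient_pos.2 hq1).ne'
  have e0 : ∑ c ∈ range q, χ (c : ZMod q) *
      (((if c.Coprime q then (y : ℝ) / (Nat.totient q : ℝ) else 0) : ℝ) : ℂ) =
      ∑ n ∈ Icc 1 y, (if χ = 1 then (1 : ℂ) else 0) := by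
    have e1 : ∀ c ∈ range q, χ (c : ZMod q) *
        (((if c.Coprime q then (y : ℝ) / (Nat.totient q : ℝ) else 0) : ℝ) : ℂ) =
        χ (c : ZMod q) * ((y : ℂ) / (Nat.totient q : ℂ)) := by
      intro c _
      split_ifs with hc
      · push_cast
        rfl
      · have : χ (c : ZMod q) = 0 := by
          apply MulChar.map_nonunit
          rwa [ZMod.isUnit_iff_coprime]
        rw [this, zero_mul, zero_mul]
    rw [sum_congr rfl e1, ← sum_mul, sum_zmod q (fun a => χ a), sum_const, Nat.card_Icc]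
    split_ifs with h1
    · rw [h1, MulChar.sum_one_eq_card_units, ZMod.card_units_eq_totient, nsmul_eq_mul]
      field_simp
      simp
    · rw [MulChar.sum_eq_zero_of_ne_one h1]
      simp
  have e2 : ∑ n ∈ Icc 1 y, (cL χ n - (if χ = 1 then 1 else 0)) =
      ∑ c ∈ range q, χ (c : ZMod q) *
        (((∑ n ∈ (Icc 1 y).filter (fun n => n ≡ c [MOD q]), ArithmeticFunction.vonMangoldt n) -
          (if c.Coprime q then (y : ℝ) / (Nat.totient q : ℝ) else 0) : ℝ) : ℂ) := by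
    rw [sum_sub_distrib, ← e0]
    unfold cL
    rw [cls, ← sum_sub_distrib]
    refine sum_congr rfl fun c _ => ?_
    rw [← mul_sub, Complex.ofReal_sub]
  rw [e2]
  refine (norm_sum_le _ _).trans ?_
  refine (sum_le_card_nsmul _ _ ((N : ℝ) / Real.log N ^ U) fun c _ => ?_).trans ?_
  · rw [norm_mul, Complex.norm_real, Real.norm_eq_abs]
    have h3 := h N hN q hq1 hqB c y hy
    calc _ ≤ 1 * (N / Real.log N ^ U) :=
          mul_le_mul (chi_le χ _) h3 (abs_nonneg _) zero_le_one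
      _ = _ := one_mul _
  · rw [card_range, nsmul_eq_mul]

/-- the prefix sums for `μ` -/
theorem pre_mu (B U : ℕ) : ∃ N0 : ℕ, ∀ N : ℕ, N0 ≤ N → ∀ (q : ℕ) (_ : NeZero q),
    (q : ℝ) ≤ Real.log N ^ B → ∀ (χ : DirichletCharacter ℂ q) (y : ℕ), y ≤ N →
    ‖∑ n ∈ Icc 1 y, cM χ n‖ ≤ q * (N / Real.log N ^ U) := by
  obtain ⟨N0, h⟩ := Pool.Agent.H373R2.T7.mu_ap B U
  refine ⟨N0, fun N hN q hq hqB χ y hy => ?_⟩
  have hq1 : 1 ≤ q := Nat.pos_of_ne_zero (NeZero.ne q)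
  have e1 : ∑ n ∈ Icc 1 y, cM χ n = ∑ c ∈ range q, χ (c : ZMod q) *
      ((∑ n ∈ (Icc 1 y).filter (fun n => n ≡ c [MOD q]), Pool.Agent.H373R2.T7.muR n : ℝ) : ℂ) := by
    rw [← cls]
    refine sum_congr rfl fun n _ => ?_
    unfold cM Pool.Agent.H373R2.T7.muR
    push_cast
    rfl
  rw [e1]
  refine (norm_sum_le _ _).trans ?_
  refine (sum_le_card_nsmul _ _ ((N : ℝ) / Real.log N ^ U) fun c _ => ?_).trans ?_
  · rw [norm_mul, Complex.norm_real, Real.norm_eq_abs]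
    have h3 := h N hN q hq1 hqB c y hy
    calc _ ≤ 1 * (N / Real.log N ^ U) :=
          mul_le_mul (chi_le χ _) h3 (abs_nonneg _) zero_le_one
      _ = _ := one_mul _
  · rw [card_range, nsmul_eq_mul]

/-- JOB CR-LOW -/
theorem low : S_LOW := by
  intro B C₀ K
  obtain ⟨N1, h1⟩ := pre_lam B (K + B + C₀ + 1)
  obtain ⟨N2, h2⟩ := pre_mu B (K + B + C₀ + 1)
  refine ⟨max (max N1 N2) ⌈Real.exp 100⌉₊, fun X hX q hq hqB χ τ hτ x1 x2 hx1 hx2 => ?_⟩
  have hX1 : N1 ≤ X := le_trans (le_trans (le_max_left _ _) (le_max_left _ _)) hX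
  have hX2 : N2 ≤ X := le_trans (le_trans (le_max_right _ _) (le_max_left _ _)) hX
  have hX3 : Real.exp 100 ≤ X :=
    (Nat.le_ceil _).trans (by exact_mod_cast le_trans (le_max_right _ _) hX)
  have hX0 : (0 : ℝ) < X := lt_of_lt_of_le (Real.exp_pos _) hX3
  have hX0' : 1 ≤ X := by exact_mod_cast hX0
  have hL : 100 ≤ Real.log X := (Real.le_log_iff_exp_le hX0).2 hX3
  obtain ⟨L, hLd⟩ : ∃ L, L = Real.log X := ⟨_, rfl⟩
  have hLL : L ≤ Real.log ((9 * X : ℕ) : ℝ) := by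
    rw [hLd]
    exact Real.log_le_log hX0 (by push_cast; linarith)
  have hqB' : (q : ℝ) ≤ Real.log ((9 * X : ℕ) : ℝ) ^ B := by
    refine hqB.trans ?_
    rw [← hLd] at hL ⊢
    exact pow_le_pow_left₀ (by linarith) hLL B
  rw [← hLd] at hL hτ hqB ⊢
  -- general step
  have step : ∀ g : ℕ → ℂ, (∀ y ≤ 9 * X, ‖∑ n ∈ Icc 1 y, g n‖ ≤
      q * (((9 * X : ℕ) : ℝ) / Real.log ((9 * X : ℕ) : ℝ) ^ (K + B + C₀ + 1))) →
      ‖∑ n ∈ Ioc x1 x2, g n * nt τ n‖ ≤ X / L ^ K := by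
    intro g hg
    have hL0 : 0 < L := by linarith
    have hb : (q : ℝ) * (((9 * X : ℕ) : ℝ) / Real.log ((9 * X : ℕ) : ℝ) ^ (K + B + C₀ + 1)) ≤
        L ^ B * (9 * X / L ^ (K + B + C₀ + 1)) := by
      have h3 : L ^ (K + B + C₀ + 1) ≤ Real.log ((9 * X : ℕ) : ℝ) ^ (K + B + C₀ + 1) :=
        pow_le_pow_left₀ hL0.le hLL _
      have h4 : ((9 * X : ℕ) : ℝ) / Real.log ((9 * X : ℕ) : ℝ) ^ (K + B + C₀ + 1) ≤
          9 * X / L ^ (K + B + C₀ + 1) := by
        push_cast at h3 ⊢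
        exact div_le_div_of_nonneg_left (by positivity) (by positivity) h3
      exact mul_le_mul hqB h4 (by
        have : 0 ≤ Real.log ((9 * X : ℕ) : ℝ) := hL0.le.trans hLL
        positivity) (by positivity)
    have hp := parts_le (g := g) (f := nt τ) (x1 := x1) (x2 := x2) (M := 9 * X)
      (B := L ^ B * (9 * X / L ^ (K + B + C₀ + 1))) (D := |τ| / X) hx2 (by positivity)
      (by positivity) (fun y hy => (hg y hy).trans hb) (fun n hn => (nt_norm τ hn).le) (by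
        intro n hn
        have hn1 : 1 ≤ n := by omega
        refine (nt_diff τ hn1).trans ?_
        have : (X : ℝ) ≤ n := by exact_mod_cast (by omega : X ≤ n)
        exact div_le_div_of_nonneg_left (abs_nonneg _) hX0 this)
    refine hp.trans ?_
    have h5 : (2 + (x2 : ℝ) * (|τ| / X)) ≤ 10 * L ^ C₀ + L ^ C₀ := by
      have h6 : (x2 : ℝ) * (|τ| / X) ≤ 9 * |τ| := by
        have h7 : (x2 : ℝ) ≤ 9 * X := by exact_mod_cast hx2
        calc (x2 : ℝ) * (|τ| / X) ≤ (9 * X) * (|τ| / X) :=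
              mul_le_mul_of_nonneg_right h7 (by positivity)
          _ = _ := by field_simp
      have h8 : 1 ≤ L ^ C₀ := one_le_pow₀ (by linarith)
      linarith
    calc L ^ B * (9 * X / L ^ (K + B + C₀ + 1)) * (2 + x2 * (|τ| / X)) ≤
          L ^ B * (9 * X / L ^ (K + B + C₀ + 1)) * (10 * L ^ C₀) + L ^ B * (9 * X / L ^ (K + B + C₀ + 1)) * L ^ C₀ := by
          rw [← mul_add]
          exact mul_le_mul_of_nonneg_left h5 (by positivity)
      _ = (99 / L) * (X / L ^ K) := by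
          rw [show K + B + C₀ + 1 = (K + B + C₀) + 1 by ring, pow_succ, pow_add, pow_add]
          field_simp
          ring
      _ ≤ 1 * (X / L ^ K) := by
          refine mul_le_mul_of_nonneg_right ?_ (by positivity)
          rw [div_le_one hL0]
          linarith
      _ = _ := one_mul _
  exact ⟨step _ (h1 (9 * X) (by omega) q hq hqB' χ), step _ (h2 (9 * X) (by omega) q hq hqB' χ)⟩

end Pool.Agent.Q121.CR
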